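import Pool.Agent.Q90.FeStmt
import Pool.Agent.Q90.FeBridge

set_option autoImplicit false

/-!
Compact operators in the algebra `C*_u(X, V_μ)` generated by the operators of bounded support
expansion on `L₂(X, μ)`. Definitions: `Pool.Agent.Q90.FeStmt`.
-/

open MeasureTheory

namespace Pool.Agent.Results.MP_fe632d_an.CompactOperators

open Q90.FE

/-- Part 1, the principal case: for `X = ℝ` with Lebesgue measure every compact operator on
`L₂(X, μ)` is in `C*_u(X, V_μ)`.

Part 2: if `μ` is a nonzero `σ`-finite measure on a standard Borel space `X`, then `C*_u(X, V_μ)`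
contains a nonzero compact operator.

Part 3: if `μ` is a `σ`-finite measure on a standard Borel space `X`, then `C*_u(X, V_μ)` contains
all compact operators on `L₂(X, μ)` if and only if `μ` has no atoms or is concentrated on a
countable set. -/
theorem result :
    HasAllCompact (volume : Measure ℝ) ∧
    (∀ (X : Type) [MeasurableSpace X] [StandardBorelSpace X] (μ : Measure X) [SigmaFinite μ],
      μ ≠ 0 → HasNonzeroCompact μ) ∧
    (∀ (X : Type) [MeasurableSpace X] [StandardBorelSpace X] (μ : Measure X) [SigmaFinite μ],
      HasAllCompact μ ↔ ((∀ x : X, μ {x} = 0) ∨ ∃ S : Set X, S.Countable ∧ μ Sᶜ = 0)) :=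
  ⟨(hasAll_iff _).mpr fun _ hK => atomless_mem (fun _ => Real.volume_singleton) hK,
    fun _ _ _ _ _ hμ => (hasNonzero_iff _).mpr
      (let ⟨K, h1, h2, h3⟩ := exists_compact hμ; ⟨K, h3, h2, h1⟩),
    fun _ _ _ _ _ => (hasAll_iff _).trans all_compact_iff⟩

end Pool.Agent.Results.MP_fe632d_an.CompactOperators
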